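import Mathlib

/-!
# A criterion for the conjugation action on the space of left orders not to be minimal

A group `G` acts on a family of chains `{x} × Ω`.  The lexicographic order of the first moved
point of an invariant set `D` is compared with an order that looks first at one point.
-/

set_option autoImplicit false

namespace Pool.Agent.H36LO

/-- `P` is the positive cone of a left order on `G`. -/
def Cone {G : Type} [Group G] (P : Set G) : Prop :=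
  (∀ a ∈ P, ∀ b ∈ P, a * b ∈ P) ∧ (1 : G) ∉ P ∧
    (∀ a : G, a ≠ 1 → (a ∈ P ∨ a⁻¹ ∈ P)) ∧ (∀ a ∈ P, a⁻¹ ∉ P)

section crit

variable {G X Ω : Type} [Group G] [LinearOrder Ω] (ρ : X → G →* (Ω ≃o Ω)) (D : X → Set Ω)

theorem act_mul (x : X) (a b : G) (s : Ω) : ρ x (a * b) s = ρ x a (ρ x b s) := by
  rw [map_mul]
  rfl

theorem act_one (x : X) (s : Ω) : ρ x 1 s = s := by
  rw [map_one]
  rfl

theorem act_inv (x : X) (a : G) (s : Ω) : ρ x a⁻¹ (ρ x a s) = s := by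
  rw [← act_mul, inv_mul_cancel, act_one]

theorem act_inv' (x : X) (a : G) (s : Ω) : ρ x a (ρ x a⁻¹ s) = s := by
  rw [← act_mul, mul_inv_cancel, act_one]

theorem act_fix (x : X) (a : G) (s : Ω) (h : ρ x a s = s) : ρ x a⁻¹ s = s := by
  conv_lhs => rw [← h]
  exact act_inv ρ x a s

theorem act_lt (x : X) (a : G) (s : Ω) : ρ x a s < s ↔ s < ρ x a⁻¹ s := by
  rw [← (ρ x a⁻¹).lt_iff_lt, act_inv]

theorem act_gt (x : X) (a : G) (s : Ω) : s < ρ x a s ↔ ρ x a⁻¹ s < s := by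
  rw [← (ρ x a⁻¹).lt_iff_lt, act_inv]

/-- the order of the first moved point -/
def PD : Set G := {g | ∃ p : X × Ω, p.2 ∈ D p.1 ∧ p.2 < ρ p.1 g p.2 ∧
  ∀ q : X × Ω, q.2 ∈ D q.1 → WellOrderingRel q p → ρ q.1 g q.2 = q.2}

theorem first (g : G) (hg : ∃ p : X × Ω, p.2 ∈ D p.1 ∧ ρ p.1 g p.2 ≠ p.2) :
    ∃ p : X × Ω, p.2 ∈ D p.1 ∧ ρ p.1 g p.2 ≠ p.2 ∧
      ∀ q : X × Ω, q.2 ∈ D q.1 → WellOrderingRel q p → ρ q.1 g q.2 = q.2 := by
  have hwf : WellFounded (WellOrderingRel : X × Ω → X × Ω → Prop) := IsWellFounded.wf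
  obtain ⟨p, hp, hmin⟩ := hwf.has_min {p : X × Ω | p.2 ∈ D p.1 ∧ ρ p.1 g p.2 ≠ p.2} hg
  refine ⟨p, hp.1, hp.2, ?_⟩
  intro q hq hqp
  by_contra h
  exact hmin q ⟨hq, h⟩ hqp

theorem first' (hD : ∀ g : G, (∀ x, ∀ s ∈ D x, ρ x g s = s) → g = 1) (g : G) (hg : g ≠ 1) :
    ∃ p : X × Ω, p.2 ∈ D p.1 ∧ ρ p.1 g p.2 ≠ p.2 ∧
      ∀ q : X × Ω, q.2 ∈ D q.1 → WellOrderingRel q p → ρ q.1 g q.2 = q.2 := by
  apply first
  by_contra h
  push Not at h
  exact hg (hD g fun x s hs => h (x, s) hs)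

theorem PD_mul (a b : G) (ha : a ∈ PD ρ D) (hb : b ∈ PD ρ D) : a * b ∈ PD ρ D := by
  obtain ⟨p, hp, hpa, hp2⟩ := ha
  obtain ⟨q, hq, hqb, hq2⟩ := hb
  rcases trichotomous_of WellOrderingRel p q with h | h | h
  · refine ⟨p, hp, ?_, ?_⟩
    · rw [act_mul, hq2 p hp h]
      exact hpa
    · intro z hz hzp
      rw [act_mul, hq2 z hz (trans_of WellOrderingRel hzp h), hp2 z hz hzp]
  · subst h
    refine ⟨p, hp, ?_, ?_⟩
    · rw [act_mul]
      exact hpa.trans ((ρ p.1 a).lt_iff_lt.2 hqb)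
    · intro z hz hzp
      rw [act_mul, hq2 z hz hzp, hp2 z hz hzp]
  · refine ⟨q, hq, ?_, ?_⟩
    · rw [act_mul]
      have h1 := (ρ q.1 a).lt_iff_lt.2 hqb
      rw [hp2 q hq h] at h1
      exact h1
    · intro z hz hzq
      rw [act_mul, hq2 z hz hzq, hp2 z hz (trans_of WellOrderingRel hzq h)]

theorem PD_one : (1 : G) ∉ PD ρ D := by
  rintro ⟨p, hp, h, _⟩
  rw [act_one] at h
  exact lt_irrefl _ h

theorem PD_cone (hD : ∀ g : G, (∀ x, ∀ s ∈ D x, ρ x g s = s) → g = 1) : Cone (PD ρ D) := by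
  refine ⟨fun a ha b hb => PD_mul ρ D a b ha hb, PD_one ρ D, ?_, ?_⟩
  · intro a ha
    obtain ⟨p, hp, hne, hbef⟩ := first' ρ D hD a ha
    rcases lt_or_gt_of_ne hne with h | h
    · right
      exact ⟨p, hp, (act_lt ρ p.1 a p.2).1 h, fun q hq hqp => act_fix ρ _ _ _ (hbef q hq hqp)⟩
    · left
      exact ⟨p, hp, h, hbef⟩
  · intro a ha hai
    have h := PD_mul ρ D a a⁻¹ ha hai
    rw [mul_inv_cancel] at h
    exact PD_one ρ D h

/-- the order that looks first at `y` -/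
def QY (R : Set G) (x : X) (y : Ω) : Set G := {g | y < ρ x g y ∨ (ρ x g y = y ∧ g ∈ R)}

theorem QY_cone {R : Set G} (hR : Cone R) (x : X) (y : Ω) : Cone (QY ρ R x y) := by
  have hmul : ∀ a ∈ QY ρ R x y, ∀ b ∈ QY ρ R x y, a * b ∈ QY ρ R x y := by
    intro a ha b hb
    unfold QY
    rw [Set.mem_ofPred_eq, act_mul]
    rcases ha with ha | ⟨ha, haR⟩
    · rcases hb with hb | ⟨hb, hbR⟩
      · exact Or.inl (ha.trans ((ρ x a).lt_iff_lt.2 hb))
      · rw [hb]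
        exact Or.inl ha
    · rcases hb with hb | ⟨hb, hbR⟩
      · left
        have h1 := (ρ x a).lt_iff_lt.2 hb
        rw [ha] at h1
        exact h1
      · rw [hb, ha]
        exact Or.inr ⟨rfl, hR.1 a haR b hbR⟩
  have hone : (1 : G) ∉ QY ρ R x y := by
    rintro (h | ⟨_, h⟩)
    · rw [act_one] at h
      exact lt_irrefl _ h
    · exact hR.2.1 h
  refine ⟨hmul, hone, ?_, ?_⟩
  · intro a ha
    rcases lt_trichotomy (ρ x a y) y with h | h | h
    · exact Or.inr (Or.inl ((act_lt ρ x a y).1 h))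
    · rcases hR.2.2.1 a ha with h2 | h2
      · exact Or.inl (Or.inr ⟨h, h2⟩)
      · exact Or.inr (Or.inr ⟨act_fix ρ x a y h, h2⟩)
    · exact Or.inl (Or.inl h)
  · intro a ha hai
    have h := hmul a ha _ hai
    rw [mul_inv_cancel] at h
    exact hone h

theorem Cone_inv {R : Set G} (hR : Cone R) : Cone {g : G | g⁻¹ ∈ R} := by
  refine ⟨?_, ?_, ?_, ?_⟩
  · intro a ha b hb
    rw [Set.mem_ofPred_eq, mul_inv_rev]
    exact hR.1 _ hb _ ha
  · rw [Set.mem_ofPred_eq, inv_one]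
    exact hR.2.1
  · intro a ha
    rw [Set.mem_ofPred_eq, Set.mem_ofPred_eq, inv_inv]
    exact (hR.2.2.1 a ha).symm
  · intro a ha
    rw [Set.mem_ofPred_eq, inv_inv]
    intro h
    exact hR.2.2.2 a h ha

/-- **Criterion.**  `G` acts on the chains `{x} × Ω`; the sets `D x` are invariant and `G` acts
faithfully on them.  The element `f ≠ 1` fixes a point `y` that all `u ∈ U` move up, while in the
points of `D` fixed by `f` no `u` moves up and in the points that `f` moves down some `u` moves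
down.  Then the conjugates of one left order never make `U` positive and `f` negative, while
another left order does. -/
theorem crit (hinv : ∀ (g : G) (x : X), ∀ s ∈ D x, ρ x g s ∈ D x)
    (hD : ∀ g : G, (∀ x, ∀ s ∈ D x, ρ x g s = s) → g = 1)
    (U : Finset G) (f : G) (x : X) (y : Ω) (hf : f ≠ 1) (hfy : ρ x f y = y)
    (hu : ∀ u ∈ U, y < ρ x u y)
    (h1 : ∀ z, ∀ s ∈ D z, ρ z f s = s → ∀ u ∈ U, ρ z u s ≤ s)
    (h2 : ∀ z, ∀ s ∈ D z, ρ z f s < s → ∃ u ∈ U, ρ z u s < s) :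
    ∃ P Q : Set G, Cone P ∧ Cone Q ∧
      ∃ F : Finset G, ∀ g : G, ¬ ∀ a ∈ F, (g * a * g⁻¹ ∈ P ↔ a ∈ Q) := by
  classical
  have hP : Cone (PD ρ D) := PD_cone ρ D hD
  obtain ⟨R, hR, hfR⟩ : ∃ R : Set G, Cone R ∧ f ∉ R := by
    by_cases h : f ∈ PD ρ D
    · exact ⟨_, Cone_inv hP, fun h' => hP.2.2.2 f h h'⟩
    · exact ⟨_, hP, h⟩
  refine ⟨PD ρ D, QY ρ R x y, hP, QY_cone ρ hR x y, insert f U, ?_⟩
  intro g hg
  have hfQ : f ∉ QY ρ R x y := by
    rintro (h | ⟨_, h⟩)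
    · rw [hfy] at h
      exact lt_irrefl _ h
    · exact hfR h
  have hfP : g * f * g⁻¹ ∉ PD ρ D := fun h => hfQ ((hg f (Finset.mem_insert_self _ _)).1 h)
  have huP : ∀ u ∈ U, g * u * g⁻¹ ∈ PD ρ D := fun u hu' =>
    (hg u (Finset.mem_insert_of_mem hu')).2 (Or.inl (hu u hu'))
  have hne : g * f * g⁻¹ ≠ 1 := by
    intro h
    exact hf (conj_eq_one_iff.1 h)
  obtain ⟨p, hp, hpf, hbef⟩ := first' ρ D hD _ hne
  have hconj : ∀ (a : G) (z : X) (s : Ω), ρ z (g * a * g⁻¹) s = ρ z g (ρ z a (ρ z g⁻¹ s)) := by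
    intro a z s
    rw [act_mul, act_mul]
  have hmem : ∀ (z : X), ∀ s ∈ D z, ρ z g⁻¹ s ∈ D z := fun z s hs => hinv g⁻¹ z s hs
  have e1 : ∀ (a : G) (z : X) (s : Ω), ρ z (g * a * g⁻¹) s = s ↔
      ρ z a (ρ z g⁻¹ s) = ρ z g⁻¹ s := by
    intro a z s
    rw [hconj]
    constructor
    · intro h
      conv_rhs => rw [← h]
      exact (act_inv ρ z g _).symm
    · intro h
      rw [h, act_inv']
  have e2 : ∀ (a : G) (z : X) (s : Ω), ρ z (g * a * g⁻¹) s < s ↔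
      ρ z a (ρ z g⁻¹ s) < ρ z g⁻¹ s := by
    intro a z s
    rw [hconj, ← (ρ z g⁻¹).lt_iff_lt, act_inv]
  have e3 : ∀ (a : G) (z : X) (s : Ω), ρ z (g * a * g⁻¹) s ≤ s ↔
      ρ z a (ρ z g⁻¹ s) ≤ ρ z g⁻¹ s := by
    intro a z s
    rw [hconj, ← (ρ z g⁻¹).le_iff_le, act_inv]
  rcases lt_or_gt_of_ne hpf with h | h
  · obtain ⟨u, hu', hul⟩ := h2 p.1 _ (hmem p.1 _ hp) ((e2 f p.1 p.2).1 h)
    have hul' : ρ p.1 (g * u * g⁻¹) p.2 < p.2 := (e2 u p.1 p.2).2 hul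
    obtain ⟨q, hq, hqu, hqb⟩ := huP u hu'
    rcases trichotomous_of WellOrderingRel p q with h3 | h3 | h3
    · rw [hqb p hp h3] at hul'
      exact lt_irrefl _ hul'
    · subst h3
      exact lt_asymm hul' hqu
    · have h4 := h1 q.1 _ (hmem q.1 _ hq) ((e1 f q.1 q.2).1 (hbef q hq h3)) u hu'
      exact absurd ((e3 u q.1 q.2).2 h4) (not_le.2 hqu)
  · exact hfP ⟨p, hp, h, hbef⟩

end crit

section line

variable {G X : Type} [Group G] [Countable G] (ρ : X → G →* (ℝ ≃o ℝ))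

/-- **Countable groups acting on a family of lines.**  The conditions on `U` and `f` have to hold
only outside of a meagre set on each line. -/
theorem crit_line (hρ : ∀ g : G, (∀ x, ρ x g = 1) → g = 1)
    (U : Finset G) (f : G) (x : X) (y : ℝ) (hf : f ≠ 1) (hfy : ρ x f y = y)
    (hu : ∀ u ∈ U, y < ρ x u y)
    (h1 : ∀ z, IsMeagre {s : ℝ | ρ z f s = s ∧ ∃ u ∈ U, s < ρ z u s})
    (h2 : ∀ z, IsMeagre {s : ℝ | ρ z f s < s ∧ ∀ u ∈ U, s ≤ ρ z u s}) :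
    ∃ P Q : Set G, Cone P ∧ Cone Q ∧
      ∃ F : Finset G, ∀ g : G, ¬ ∀ a ∈ F, (g * a * g⁻¹ ∈ P ↔ a ∈ Q) := by
  let A : X → Set ℝ := fun z => {s : ℝ | ρ z f s = s ∧ ∃ u ∈ U, s < ρ z u s} ∪
    {s : ℝ | ρ z f s < s ∧ ∀ u ∈ U, s ≤ ρ z u s}
  let D : X → Set ℝ := fun z => {s : ℝ | ∀ g : G, ρ z g s ∉ A z}
  have hA : ∀ z, IsMeagre (A z) := fun z => (h1 z).union (h2 z)
  have hDc : ∀ z, Dense (D z) := by
    intro z
    have hc : IsMeagre (⋃ g : G, ρ z g ⁻¹' A z) :=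
      isMeagre_iUnion fun g => (hA z).preimage_of_isOpenMap (ρ z g).continuous
        (ρ z g).toHomeomorph.isOpenMap
    refine (dense_of_mem_residual hc).mono ?_
    intro s hs g hgs
    apply hs
    rw [Set.mem_iUnion]
    exact ⟨g, hgs⟩
  have hself : ∀ z, ∀ s ∈ D z, s ∉ A z := by
    intro z s hs h
    apply hs 1
    rw [act_one]
    exact h
  refine crit ρ D ?_ ?_ U f x y hf hfy hu ?_ ?_
  · intro g z s hs h
    rw [← act_mul]
    exact hs (h * g)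
  · intro g hg
    apply hρ
    intro z
    by_contra hne
    have hex : ∃ s, ρ z g s ≠ s := by
      by_contra h
      push Not at h
      exact hne (RelIso.ext h)
    have hopen : IsOpen {s : ℝ | ρ z g s ≠ s} :=
      isOpen_ne_fun (ρ z g).continuous continuous_id
    obtain ⟨s, hs, hsD⟩ := (hDc z).inter_open_nonempty _ hopen hex
    exact hs (hg z s hsD)
  · intro z s hs hfs u hu'
    by_contra h
    exact hself z s hs (Or.inl ⟨hfs, u, hu', not_le.1 h⟩)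
  · intro z s hs hfs
    by_contra h
    push Not at h
    exact hself z s hs (Or.inr ⟨hfs, h⟩)

end line

end Pool.Agent.H36LO
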