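import Pool.Agent.H36LO.Struct

/-!
# Minimality and actions on the line with dense orbits: recurrence at infinity
-/

set_option autoImplicit false

namespace Pool.Agent.H36LO

open Filter

/-- the ultrapower of the line -/
abbrev RR : Type := Germ (hyperfilter ℕ : Filter ℕ) ℝ

/-- the infinite elements of the ultrapower of the line -/
abbrev Infi : Type := {x : RR // ∀ r : ℝ, ((r : ℝ) : RR) < x}

theorem germ_lt (h : ℝ ≃o ℝ) (x y : RR) : Germ.map h x < Germ.map h y ↔ x < y := by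
  induction x, y using Germ.inductionOn₂ with
  | _ f g =>
    rw [Germ.map_coe, Germ.map_coe, Germ.coe_lt, Germ.coe_lt]
    refine eventually_congr (Eventually.of_forall fun n => ?_)
    exact h.lt_iff_lt

theorem germ_inv (h : ℝ ≃o ℝ) (x : RR) : Germ.map h.symm (Germ.map h x) = x := by
  rw [Germ.map_map]
  have e : (h.symm : ℝ → ℝ) ∘ h = id := by
    funext s
    exact h.symm_apply_apply s
  rw [e, Germ.map_id]
  rfl

theorem germ_inf (h : ℝ ≃o ℝ) (x : Infi) (r : ℝ) : ((r : ℝ) : RR) < Germ.map h x.1 := by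
  have h1 := (germ_lt h _ _).2 (x.2 (h.symm r))
  rw [Germ.map_const, h.apply_symm_apply] at h1
  exact h1

/-- the action on the infinite elements -/
noncomputable def infE (h : ℝ ≃o ℝ) : Infi ≃o Infi where
  toFun x := ⟨Germ.map h x.1, germ_inf h x⟩
  invFun x := ⟨Germ.map h.symm x.1, germ_inf h.symm x⟩
  left_inv x := Subtype.ext (germ_inv h x.1)
  right_inv x := Subtype.ext (germ_inv h.symm x.1)
  map_rel_iff' := by
    intro x y
    rw [← not_lt, ← not_lt]
    exact not_congr (germ_lt h y.1 x.1)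

/-- the action of a group -/
noncomputable def infA {G : Type} [Group G] (ρ : G →* (ℝ ≃o ℝ)) : G →* (Infi ≃o Infi) where
  toFun g := infE (ρ g)
  map_one' := by
    apply RelIso.ext
    intro x
    apply Subtype.ext
    show Germ.map (ρ 1) x.1 = x.1
    rw [map_one]
    have e : ((1 : ℝ ≃o ℝ) : ℝ → ℝ) = id := rfl
    rw [e, Germ.map_id]
    rfl
  map_mul' a b := by
    apply RelIso.ext
    intro x
    apply Subtype.ext
    show Germ.map (ρ (a * b)) x.1 = Germ.map (ρ a) (Germ.map (ρ b) x.1)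
    rw [map_mul, Germ.map_map]
    rfl

theorem infA_triv {G : Type} [Group G] (ρ : G →* (ℝ ≃o ℝ)) (g : G) :
    infA ρ g = 1 ↔ ∃ b : ℝ, ∀ s, b < s → ρ g s = s := by
  constructor
  · intro h
    by_contra hne
    push Not at hne
    choose s hs hs2 using fun n : ℕ => hne (n : ℝ)
    have hinf : ∀ r : ℝ, ((r : ℝ) : RR) < ((s : ℕ → ℝ) : RR) := by
      intro r
      have h1 : ∀ᶠ n : ℕ in atTop, r < s n := by
        obtain ⟨N, hN⟩ := exists_nat_gt r
        filter_upwards [eventually_ge_atTop N] with n hn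
        have h2 : (N : ℝ) ≤ n := by exact_mod_cast hn
        linarith [hs n]
      exact Germ.coe_lt.2 (h1.filter_mono Nat.hyperfilter_le_atTop)
    have h2 : infA ρ g ⟨_, hinf⟩ = ⟨_, hinf⟩ := by
      rw [h]
      rfl
    have h3 : Germ.map (ρ g) ((s : ℕ → ℝ) : RR) = ((s : ℕ → ℝ) : RR) := congrArg Subtype.val h2
    rw [Germ.map_coe, Germ.coe_eq] at h3
    obtain ⟨n, hn⟩ := h3.exists
    exact hs2 n hn
  · rintro ⟨b, hb⟩
    apply RelIso.ext
    rintro ⟨x, hx⟩
    apply Subtype.ext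
    show Germ.map (ρ g) x = x
    induction x using Germ.inductionOn with
    | _ f =>
      rw [Germ.map_coe, Germ.coe_eq]
      have h1 := Germ.coe_lt.1 (hx b)
      filter_upwards [h1] with n hn
      exact hb _ hn

section up

variable {G : Type} [Group G]

theorem aut_cone (Ω : Type) [LinearOrder Ω] : ∃ Q : Set (Ω ≃o Ω), Cone Q := by
  let τ : Unit → (Ω ≃o Ω) →* (Ω ≃o Ω) := fun _ => MonoidHom.id _
  let D : Unit → Set Ω := fun _ => Set.univ
  exact ⟨PD τ D, PD_cone τ D fun g hg => RelIso.ext fun s => hg () s (Set.mem_univ _)⟩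

theorem amul (ρ : G →* (ℝ ≃o ℝ)) (a b : G) (s : ℝ) : ρ (a * b) s = ρ a (ρ b s) := by
  rw [map_mul]
  rfl

theorem ainv (ρ : G →* (ℝ ≃o ℝ)) (a : G) (s : ℝ) : ρ a⁻¹ (ρ a s) = s := by
  rw [← amul, inv_mul_cancel, map_one]
  rfl

theorem ainv' (ρ : G →* (ℝ ≃o ℝ)) (a : G) (s : ℝ) : ρ a (ρ a⁻¹ s) = s := by
  rw [← amul, mul_inv_cancel, map_one]
  rfl

/-- the elements with support bounded above have a common fixed point -/
theorem K_fix [Group.FG G] (hG : Minimal G) {P : Set G} (hP : Cone P) (ρ : G →* (ℝ ≃o ℝ))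
    (hd : ∀ s, ∃ g, ρ g s ≠ s) : ∃ s, ∀ k, infA ρ k = 1 → ρ k s = s := by
  by_contra hcon
  push Not at hcon
  -- the normal subgroup of the elements that are trivial near infinity
  let K : Subgroup G := (infA ρ).ker
  have hK : ∀ k, k ∈ K ↔ ∃ b : ℝ, ∀ s, b < s → ρ k s = s := fun k => infA_triv ρ k
  -- it has no bounded orbit
  have hunb : ∀ x M : ℝ, ∃ k ∈ K, M < ρ k x := by
    intro x M
    by_contra h
    push Not at h
    let O : Set ℝ := {s | ∃ k ∈ K, ρ k x = s}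
    have hO : O.Nonempty := ⟨_, 1, K.one_mem, rfl⟩
    have hOb : BddAbove O := ⟨M, by rintro _ ⟨k, hk, rfl⟩; exact h k hk⟩
    have hle : ∀ k ∈ K, sSup O ≤ ρ k (sSup O) := by
      intro k hk
      apply csSup_le hO
      rintro _ ⟨l, hl, rfl⟩
      have h1 : ρ (k⁻¹ * l) x ≤ sSup O :=
        le_csSup hOb ⟨_, K.mul_mem (K.inv_mem hk) hl, rfl⟩
      have h2 := (ρ k).monotone h1
      rw [← amul, mul_inv_cancel_left] at h2
      exact h2
    obtain ⟨k, hk, hne⟩ := hcon (sSup O)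
    apply hne
    apply le_antisymm _ (hle k hk)
    have h1 := (ρ k).monotone (hle k⁻¹ (K.inv_mem hk))
    rw [ainv'] at h1
    exact h1
  -- some element is not in `K`
  obtain ⟨g, hg⟩ : ∃ g, g ∉ K := by
    by_contra h
    push Not at h
    obtain ⟨S, hS, hSf⟩ := Group.fg_iff.1 (inferInstance : Group.FG G)
    choose b hb using fun g => (hK g).1 (h g)
    obtain ⟨B, hB⟩ : ∃ B : ℝ, ∀ g ∈ S, b g ≤ B := by
      obtain ⟨B, hB⟩ := (hSf.image b).bddAbove
      exact ⟨B, fun g hg => hB (Set.mem_image_of_mem b hg)⟩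
    obtain ⟨g, hgn⟩ := hd (B + 1)
    apply hgn
    have hg : g ∈ Subgroup.closure S := by rw [hS]; exact Subgroup.mem_top g
    clear hgn
    induction hg using Subgroup.closure_induction with
    | mem x hx => exact hb x _ (by linarith [hB x hx])
    | one => rw [map_one]; rfl
    | mul x y _ _ hx hy => rw [amul, hy, hx]
    | inv x _ hx =>
      conv_lhs => rw [← hx]
      exact ainv ρ x _
  -- a point moved up
  obtain ⟨g, x, hg, hgx⟩ : ∃ (g : G) (x : ℝ), g ∉ K ∧ x < ρ g x := by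
    obtain ⟨x, hx⟩ : ∃ x, ρ g x ≠ x := by
      by_contra h
      push Not at h
      exact hg ((hK g).2 ⟨0, fun s _ => h s⟩)
    rcases lt_or_gt_of_ne hx with h | h
    · refine ⟨g⁻¹, x, fun h' => hg (K.inv_mem_iff.1 h'), ?_⟩
      have := (ρ g⁻¹).lt_iff_lt.2 h
      rwa [ainv] at this
    · exact ⟨g, x, hg, h⟩
  obtain ⟨k, hk, hkx⟩ := hunb x (ρ g x)
  obtain ⟨C, hC⟩ := aut_cone Infi
  have hQ : Cone (QY (fun _ : Unit => ρ) P () x) := QY_cone _ hP () x
  refine hg (ker_convex hG (infA ρ) hC hQ g k hk (Or.inl hgx) (Or.inl ?_))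
  have h1 := (ρ g⁻¹).lt_iff_lt.2 hkx
  rw [ainv, ← amul] at h1
  exact h1

/-- every element that is not trivial near infinity moves points arbitrarily far to the right
up -/
theorem up (hG : Minimal G) {P : Set G} (hP : Cone P) (ρ : G →* (ℝ ≃o ℝ)) (f : G)
    (hf : infA ρ f ≠ 1) (b : ℝ) : ∃ s, b < s ∧ s < ρ f s := by
  by_contra h
  push Not at h
  apply hf
  have h1 : infA ρ f⁻¹ = 1 := by
    apply two_sided hG hP (infA ρ) f⁻¹
    rintro ⟨x, hx⟩
    show (⟨x, hx⟩ : Infi) ≤ infA ρ f⁻¹ ⟨x, hx⟩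
    rw [← (infA ρ f).le_iff_le]
    have e : infA ρ f (infA ρ f⁻¹ ⟨x, hx⟩) = ⟨x, hx⟩ := by
      have : infA ρ (f * f⁻¹) ⟨x, hx⟩ = ⟨x, hx⟩ := by
        rw [mul_inv_cancel, map_one]
        rfl
      rw [map_mul] at this
      exact this
    rw [e]
    show Germ.map (ρ f) x ≤ x
    induction x using Germ.inductionOn with
    | _ u =>
      rw [Germ.map_coe, Germ.coe_le]
      have h1 := Germ.coe_lt.1 (hx b)
      filter_upwards [h1] with n hn
      exact h _ hn
  rw [map_inv, inv_eq_one] at h1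
  exact h1

theorem inv_down (ρ : G →* (ℝ ≃o ℝ)) (g : G) (s : ℝ) (hs : s < ρ g⁻¹ s) : ρ g s < s := by
  have h1 := (ρ g).lt_iff_lt.2 hs
  rw [ainv'] at h1
  exact h1

/-- both directions -/
theorem up_down (hG : Minimal G) {P : Set G} (hP : Cone P) (ρ : G →* (ℝ ≃o ℝ)) (f : G)
    (hf : infA ρ f ≠ 1) (b : ℝ) : (∃ s, b < s ∧ s < ρ f s) ∧ ∃ s, b < s ∧ ρ f s < s := by
  refine ⟨up hG hP ρ f hf b, ?_⟩
  have hfi : infA ρ f⁻¹ ≠ 1 := by
    rw [map_inv, Ne, inv_eq_one]
    exact hf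
  obtain ⟨s, h1, h2⟩ := up hG hP ρ f⁻¹ hfi b
  exact ⟨s, h1, inv_down ρ f s h2⟩

/-- the reflected homeomorphism -/
def reflE (h : ℝ ≃o ℝ) : ℝ ≃o ℝ where
  toFun := fun s => -h (-s)
  invFun := fun s => -h.symm (-s)
  left_inv := fun s => by simp
  right_inv := fun s => by simp
  map_rel_iff' := by
    intro a b
    show -h (-a) ≤ -h (-b) ↔ a ≤ b
    rw [neg_le_neg_iff, h.le_iff_le, neg_le_neg_iff]

/-- the reflected action -/
def refl (ρ : G →* (ℝ ≃o ℝ)) : G →* (ℝ ≃o ℝ) where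
  toFun := fun g => reflE (ρ g)
  map_one' := by
    apply RelIso.ext
    intro s
    show -(ρ 1) (-s) = s
    rw [map_one]
    show - -s = s
    exact neg_neg s
  map_mul' := by
    intro x y
    apply RelIso.ext
    intro s
    show -(ρ (x * y)) (-s) = -(ρ x) (- -(ρ y) (-s))
    rw [map_mul, neg_neg]
    rfl

theorem refl_apply (ρ : G →* (ℝ ≃o ℝ)) (g : G) (s : ℝ) : refl ρ g s = -ρ g (-s) := rfl

theorem refl_nofix (ρ : G →* (ℝ ≃o ℝ)) (hd : ∀ s, ∃ g, ρ g s ≠ s) (s : ℝ) :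
    ∃ g, refl ρ g s ≠ s := by
  obtain ⟨g, hg⟩ := hd (-s)
  refine ⟨g, fun h => hg ?_⟩
  rw [refl_apply] at h
  linarith

/-- the four directions -/
theorem four (hG : Minimal G) {P : Set G} (hP : Cone P) (ρ : G →* (ℝ ≃o ℝ)) (f : G)
    (h1 : infA ρ f ≠ 1) (h2 : infA (refl ρ) f ≠ 1) (b : ℝ) :
    (∃ s, b < s ∧ s < ρ f s) ∧ (∃ s, b < s ∧ ρ f s < s) ∧
      (∃ s, s < b ∧ s < ρ f s) ∧ (∃ s, s < b ∧ ρ f s < s) := by
  have h3 := up_down hG hP ρ f h1 b
  obtain ⟨⟨u, hu, hu2⟩, ⟨v, hv, hv2⟩⟩ := up_down hG hP (refl ρ) f h2 (-b)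
  rw [refl_apply] at hu2 hv2
  exact ⟨h3.1, h3.2, ⟨-v, by linarith, by linarith⟩, ⟨-u, by linarith, by linarith⟩⟩

/-- kernels of homomorphisms to left-orderable groups are nested -/
theorem nested {H L : Type} [Group H] [Group L] (hG : Minimal G) {P : Set G} (hP : Cone P)
    (φ : G →* H) (ψ : G →* L) {Q : Set H} {R : Set L} (hQ : Cone Q) (hR : Cone R) :
    (∀ g, φ g = 1 → ψ g = 1) ∨ ∀ g, ψ g = 1 → φ g = 1 := by
  by_contra h
  push Not at h
  obtain ⟨⟨a, ha, ha2⟩, ⟨b, hb, hb2⟩⟩ := h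
  -- make them positive
  have pos : ∀ c : G, c ≠ 1 → ∃ d : G, d ∈ P ∧ (d = c ∨ d = c⁻¹) := by
    intro c hc
    rcases hP.2.2.1 c hc with h | h
    · exact ⟨c, h, Or.inl rfl⟩
    · exact ⟨c⁻¹, h, Or.inr rfl⟩
  have ha1 : a ≠ 1 := by
    rintro rfl
    exact ha2 (map_one ψ)
  have hb1 : b ≠ 1 := by
    rintro rfl
    exact hb2 (map_one φ)
  obtain ⟨c, hc, hca⟩ := pos a ha1
  obtain ⟨d, hd, hdb⟩ := pos b hb1
  have hcφ : φ c = 1 := by
    rcases hca with rfl | rfl
    · exact ha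
    · rw [map_inv, ha, inv_one]
  have hcψ : ψ c ≠ 1 := by
    rcases hca with rfl | rfl
    · exact ha2
    · rw [map_inv, Ne, inv_eq_one]
      exact ha2
  have hdψ : ψ d = 1 := by
    rcases hdb with rfl | rfl
    · exact hb
    · rw [map_inv, hb, inv_one]
  have hdφ : φ d ≠ 1 := by
    rcases hdb with rfl | rfl
    · exact hb2
    · rw [map_inv, Ne, inv_eq_one]
      exact hb2
  have hne : c⁻¹ * d ≠ 1 := by
    intro h
    have : d = c := by
      have := congrArg (fun x => c * x) h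
      simpa using this
    rw [this] at hdφ
    exact hdφ hcφ
  rcases hP.2.2.1 _ hne with h | h
  · exact hcψ (ker_convex hG ψ hR hP c d hdψ hc h)
  · have e : (c⁻¹ * d)⁻¹ = d⁻¹ * c := by group
    rw [e] at h
    exact hdφ (ker_convex hG φ hQ hP d c hcφ hd h)

/-- **Recurrence at infinity.**  In every action of a finitely generated minimal group on the line
without global fixed point there is an orbit such that every element fixes this orbit pointwise or
moves points up and down arbitrarily far to the right and to the left. -/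
theorem recur [Group.FG G] (hG : Minimal G) {P : Set G} (hP : Cone P) (ρ : G →* (ℝ ≃o ℝ))
    (hd : ∀ s, ∃ g, ρ g s ≠ s) : ∃ s₀ : ℝ, ∀ f : G,
      (∀ g, ρ f (ρ g s₀) = ρ g s₀) ∨
      ∀ b : ℝ, (∃ s, b < s ∧ s < ρ f s) ∧ (∃ s, b < s ∧ ρ f s < s) ∧
        (∃ s, s < b ∧ s < ρ f s) ∧ (∃ s, s < b ∧ ρ f s < s) := by
  obtain ⟨C, hC⟩ := aut_cone Infi
  have hd' := refl_nofix ρ hd
  obtain ⟨s1, hs1⟩ := K_fix hG hP ρ hd
  obtain ⟨s2, hs2⟩ := K_fix hG hP (refl ρ) hd'
  have orb : ∀ (φ : G →* (Infi ≃o Infi)) (s₀ : ℝ), (∀ k, φ k = 1 → ρ k s₀ = s₀) →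
      ∀ f, φ f = 1 → ∀ g, ρ f (ρ g s₀) = ρ g s₀ := by
    intro φ s₀ h f hf g
    have h1 : φ (g⁻¹ * f * g) = 1 := by
      rw [map_mul, map_mul, hf, mul_one, ← map_mul, inv_mul_cancel, map_one]
    have h2 := congrArg (ρ g) (h _ h1)
    rw [← amul, show g * (g⁻¹ * f * g) = f * g by group, amul] at h2
    exact h2
  rcases nested hG hP (infA ρ) (infA (refl ρ)) hC hC with h | h
  · refine ⟨-s2, fun f => ?_⟩
    by_cases hf : infA (refl ρ) f = 1
    · left
      apply orb (infA (refl ρ)) (-s2) _ f hf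
      intro k hk
      have h1 := hs2 k hk
      rw [refl_apply] at h1
      linarith
    · right
      exact four hG hP ρ f (fun h' => hf (h f h')) hf
  · refine ⟨s1, fun f => ?_⟩
    by_cases hf : infA ρ f = 1
    · left
      exact orb (infA ρ) s1 hs1 f hf
    · right
      exact four hG hP ρ f hf fun h' => hf (h f h')

end up

end Pool.Agent.H36LO
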