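import Pool.Agent.H36LO.Crit

/-!
# Groups that contain a labelled copy of Thompson's group F on a dyadic interval
-/

set_option autoImplicit false

namespace Pool.Agent.H36LO

/-- `c` is a dyadic rational. -/
def Dy (c : ℝ) : Prop := ∃ (a : ℤ) (n : ℕ), c = a / 2 ^ n

/-- `h` is piecewise affine with finitely many break points, all dyadic, slopes powers of `2` and
dyadic constants. -/
def PL2 (h : ℝ ≃o ℝ) : Prop := ∃ B : Finset ℝ, (∀ b ∈ B, Dy b) ∧
  ∀ s t : ℝ, s < t → (∀ b ∈ B, b ≤ s ∨ t ≤ b) → ∃ (k : ℤ) (c : ℝ), Dy c ∧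
    ∀ r, s ≤ r → r ≤ t → h r = 2 ^ k * r + c

theorem countable_meagre {E : Set ℝ} (hE : E.Countable) : IsMeagre E := by
  have h1 : IsMeagre (⋃ s : E, ({(s : ℝ)} : Set ℝ)) := by
    have : Countable E := hE
    refine isMeagre_iUnion fun s => IsNowhereDense.isMeagre ?_
    unfold IsNowhereDense
    rw [isClosed_singleton.closure_eq]
    exact interior_singleton _
  refine IsMeagre.mono ?_ h1
  intro s hs
  rw [Set.mem_iUnion]
  exact ⟨⟨s, hs⟩, rfl⟩

theorem Dy_add {a b : ℝ} (ha : Dy a) (hb : Dy b) : Dy (a + b) := by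
  obtain ⟨x, n, rfl⟩ := ha
  obtain ⟨y, m, rfl⟩ := hb
  refine ⟨x * 2 ^ m + y * 2 ^ n, n + m, ?_⟩
  have h1 : (2 : ℝ) ^ n ≠ 0 := by positivity
  have h2 : (2 : ℝ) ^ m ≠ 0 := by positivity
  push_cast
  rw [pow_add]
  field_simp

theorem Dy_neg {a : ℝ} (ha : Dy a) : Dy (-a) := by
  obtain ⟨x, n, rfl⟩ := ha
  refine ⟨-x, n, ?_⟩
  push_cast
  ring

theorem Dy_half {a : ℝ} (ha : Dy a) : Dy (a / 2) := by
  obtain ⟨x, n, rfl⟩ := ha
  refine ⟨x, n + 1, ?_⟩
  rw [pow_succ, div_div]

theorem Dy_zero : Dy 0 := ⟨0, 0, by simp⟩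

/-! ### the bump on `[a, a + w]` -/

/-- the function: slopes `2`, `1`, `1/2` on `[a, a + w]`, the identity elsewhere -/
noncomputable def bf (a w s : ℝ) : ℝ := max s (min (2 * s - a) (min (s + w / 4) ((s + a + w) / 2)))

/-- the inverse function -/
noncomputable def bi (a w t : ℝ) : ℝ := min t (max ((t + a) / 2) (max (t - w / 4) (2 * t - a - w)))

theorem bf_mono {a w : ℝ} : StrictMono (bf a w) := by
  intro s t h
  unfold bf
  exact max_lt_max h (min_lt_min (by linarith) (min_lt_min (by linarith) (by linarith)))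

theorem bf_le {a w s : ℝ} (h : s ≤ a) : bf a w s = s :=
  max_eq_left ((min_le_left _ _).trans (by linarith))

theorem bf_ge {a w s : ℝ} (h : a + w ≤ s) : bf a w s = s :=
  max_eq_left ((min_le_right _ _).trans ((min_le_right _ _).trans (by linarith)))

theorem bf_gt {a w s : ℝ} (_hw : 0 < w) (h1 : a < s) (h2 : s < a + w) : s < bf a w s :=
  lt_max_of_lt_right (lt_min (by linarith) (lt_min (by linarith) (by linarith)))

theorem bf_1 {a w s : ℝ} (hw : 0 < w) (h1 : a ≤ s) (h2 : s ≤ a + w / 4) : bf a w s = 2 * s - a := by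
  unfold bf
  rw [min_eq_left (le_min (by linarith) (by linarith)), max_eq_right (by linarith)]

theorem bf_2 {a w s : ℝ} (_hw : 0 < w) (h1 : a + w / 4 ≤ s) (h2 : s ≤ a + w / 2) :
    bf a w s = s + w / 4 := by
  unfold bf
  rw [min_eq_left (show s + w / 4 ≤ (s + a + w) / 2 by linarith),
    min_eq_right (by linarith), max_eq_right (by linarith)]

theorem bf_3 {a w s : ℝ} (hw : 0 < w) (h1 : a + w / 2 ≤ s) (h2 : s ≤ a + w) :
    bf a w s = (s + a + w) / 2 := by
  unfold bf
  rw [min_eq_right (show (s + a + w) / 2 ≤ s + w / 4 by linarith),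
    min_eq_right (by linarith), max_eq_right (by linarith)]

theorem bf_bi {a w : ℝ} (hw : 0 < w) (t : ℝ) : bf a w (bi a w t) = t := by
  rcases le_total t a with h | h
  · have h1 : bi a w t = t := min_eq_left (le_max_of_le_left (by linarith))
    rw [h1, bf_le h]
  rcases le_total (a + w) t with h2 | h2
  · have h1 : bi a w t = t :=
      min_eq_left (le_max_of_le_right (le_max_of_le_right (by linarith)))
    rw [h1, bf_ge h2]
  rcases le_total t (a + w / 2) with h3 | h3
  · have h1 : bi a w t = (t + a) / 2 := by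
      unfold bi
      rw [max_eq_left (max_le (by linarith) (by linarith)), min_eq_right (by linarith)]
    rw [h1, bf_1 hw (by linarith) (by linarith)]
    ring
  rcases le_total t (a + 3 * w / 4) with h4 | h4
  · have h1 : bi a w t = t - w / 4 := by
      unfold bi
      rw [max_eq_left (show 2 * t - a - w ≤ t - w / 4 by linarith), max_eq_right (by linarith),
        min_eq_right (by linarith)]
    rw [h1, bf_2 hw (by linarith) (by linarith)]
    ring
  · have h1 : bi a w t = 2 * t - a - w := by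
      unfold bi
      rw [max_eq_right (show t - w / 4 ≤ 2 * t - a - w by linarith), max_eq_right (by linarith),
        min_eq_right (by linarith)]
    rw [h1, bf_3 hw (by linarith) (by linarith)]
    ring

/-- the bump on `[a, a + w]` -/
noncomputable def bump (a w : ℝ) (hw : 0 < w) : ℝ ≃o ℝ :=
  StrictMono.orderIsoOfRightInverse (bf a w) bf_mono (bi a w) (bf_bi hw)

theorem bump_apply (a w : ℝ) (hw : 0 < w) (s : ℝ) : bump a w hw s = bf a w s := rfl

theorem bump_PL2 (a w : ℝ) (hw : 0 < w) (ha : Dy a) (hw2 : Dy w) : PL2 (bump a w hw) := by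
  classical
  have hw4 : Dy (w / 4) := by
    have h := Dy_half (Dy_half hw2)
    have e : w / 2 / 2 = w / 4 := by ring
    rwa [e] at h
  refine ⟨{a, a + w / 4, a + w / 2, a + w}, ?_, ?_⟩
  · intro b hb
    simp only [Finset.mem_insert, Finset.mem_singleton] at hb
    rcases hb with rfl | rfl | rfl | rfl
    · exact ha
    · exact Dy_add ha hw4
    · exact Dy_add ha (Dy_half hw2)
    · exact Dy_add ha hw2
  · intro s t hst hB
    rcases hB a (by simp) with h0 | h0
    · rcases hB (a + w / 4) (by simp) with h1 | h1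
      · rcases hB (a + w / 2) (by simp) with h2 | h2
        · rcases hB (a + w) (by simp) with h3 | h3
          · refine ⟨0, 0, Dy_zero, fun r hr _ => ?_⟩
            rw [bump_apply, bf_ge (by linarith)]
            norm_num
          · refine ⟨-1, (a + w) / 2, Dy_half (Dy_add ha hw2), fun r hr hr2 => ?_⟩
            rw [bump_apply, bf_3 hw (by linarith) (by linarith), zpow_neg, zpow_one]
            ring
        · refine ⟨0, w / 4, hw4, fun r hr hr2 => ?_⟩
          rw [bump_apply, bf_2 hw (by linarith) (by linarith), zpow_zero, one_mul]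
      · refine ⟨1, -a, Dy_neg ha, fun r hr hr2 => ?_⟩
        rw [bump_apply, bf_1 hw (by linarith) (by linarith), zpow_one]
        ring
    · refine ⟨0, 0, Dy_zero, fun r _ hr => ?_⟩
      rw [bump_apply, bf_le (by linarith)]
      norm_num

/-- two bumps side by side -/
noncomputable def bump2 (a w : ℝ) (hw : 0 < w) : ℝ ≃o ℝ :=
  (bump a (w / 2) (half_pos hw)).trans (bump (a + w / 2) (w / 2) (half_pos hw))

theorem bump2_apply (a w : ℝ) (hw : 0 < w) (s : ℝ) :
    bump2 a w hw s = bf (a + w / 2) (w / 2) (bf a (w / 2) s) := rfl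

theorem bump2_le {a w s : ℝ} (hw : 0 < w) (h : s ≤ a + w / 2) :
    bump2 a w hw s = bf a (w / 2) s := by
  rw [bump2_apply]
  apply bf_le
  have h1 : bf a (w / 2) (a + w / 2) = a + w / 2 := bf_ge le_rfl
  rw [← h1]
  exact bf_mono.monotone h

theorem bump2_ge {a w s : ℝ} (hw : 0 < w) (h : a + w / 2 ≤ s) :
    bump2 a w hw s = bf (a + w / 2) (w / 2) s := by
  rw [bump2_apply, bf_ge h]

theorem bump2_PL2 (a w : ℝ) (hw : 0 < w) (ha : Dy a) (hw2 : Dy w) : PL2 (bump2 a w hw) := by
  classical
  obtain ⟨B1, hB1, h1⟩ := bump_PL2 a (w / 2) (half_pos hw) ha (Dy_half hw2)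
  obtain ⟨B2, hB2, h2⟩ := bump_PL2 (a + w / 2) (w / 2) (half_pos hw) (Dy_add ha (Dy_half hw2))
    (Dy_half hw2)
  refine ⟨insert (a + w / 2) (B1 ∪ B2), ?_, ?_⟩
  · intro b hb
    rw [Finset.mem_insert, Finset.mem_union] at hb
    rcases hb with rfl | hb | hb
    · exact Dy_add ha (Dy_half hw2)
    · exact hB1 b hb
    · exact hB2 b hb
  · intro s t hst hB
    rcases hB (a + w / 2) (Finset.mem_insert_self _ _) with h | h
    · obtain ⟨k, c, hc, hk⟩ := h2 s t hst fun b hb =>
        hB b (Finset.mem_insert_of_mem (Finset.mem_union_right _ hb))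
      refine ⟨k, c, hc, fun r hr hr2 => ?_⟩
      rw [bump2_ge hw (h.trans hr), ← hk r hr hr2, bump_apply]
    · obtain ⟨k, c, hc, hk⟩ := h1 s t hst fun b hb =>
        hB b (Finset.mem_insert_of_mem (Finset.mem_union_left _ hb))
      refine ⟨k, c, hc, fun r hr hr2 => ?_⟩
      rw [bump2_le hw (hr2.trans h), ← hk r hr hr2, bump_apply]

theorem sign0 {a w s : ℝ} (hw : 0 < w) (hs : s ≠ a + w / 2) :
    (bump2 a w hw s = s ∧ bump a w hw s = s) ∨ (s < bump2 a w hw s ∧ s < bump a w hw s) := by
  rw [bump_apply]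
  rcases le_total s a with h | h
  · left
    rw [bump2_le hw (by linarith), bf_le h, bf_le h]
    exact ⟨rfl, rfl⟩
  rcases eq_or_lt_of_le h with h | h
  · left
    rw [bump2_le hw (by linarith), bf_le h.symm.le, bf_le h.symm.le]
    exact ⟨rfl, rfl⟩
  rcases le_or_gt (a + w) s with h2 | h2
  · left
    rw [bump2_ge hw (by linarith), bf_ge (by linarith), bf_ge h2]
    exact ⟨rfl, rfl⟩
  right
  refine ⟨?_, bf_gt hw h h2⟩
  rcases lt_or_gt_of_ne hs with h3 | h3
  · rw [bump2_le hw h3.le]
    exact bf_gt (half_pos hw) h h3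
  · rw [bump2_ge hw (le_of_lt h3)]
    exact bf_gt (half_pos hw) h3 (by linarith)

/-- **Countable groups with a labelled copy of `F`.**  Here `lab x n` is the orientation of the
interval `[n, n + 1]` on the line `x`, and for every piecewise linear dyadic homeomorphism `h` with
support in the dyadic interval `[m / 2 ^ k, (m + 1) / 2 ^ k] ⊆ [0, 1]` some element of the group
acts on each of these intervals as `h` or as its mirror image. -/
theorem lab {G X : Type} [Group G] [Countable G] [Nonempty X] (ρ : X → G →* (ℝ ≃o ℝ))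
    (hρ : ∀ g : G, (∀ x, ρ x g = 1) → g = 1) (lb : X → ℤ → Bool) (m k : ℕ) (hm : m + 1 ≤ 2 ^ k)
    (hF : ∀ h : ℝ ≃o ℝ, PL2 h →
      (∀ s, ¬ ((m : ℝ) / 2 ^ k < s ∧ s < ((m : ℝ) + 1) / 2 ^ k) → h s = s) →
      ∃ g : G, ∀ (x : X) (n : ℤ) (s : ℝ), 0 ≤ s → s ≤ 1 →
        (lb x n = true → ρ x g (n + s) = n + h s) ∧
        (lb x n = false → ρ x g (n + 1 - s) = n + 1 - h s)) :
    ∃ P Q : Set G, Cone P ∧ Cone Q ∧
      ∃ F : Finset G, ∀ g : G, ¬ ∀ a ∈ F, (g * a * g⁻¹ ∈ P ↔ a ∈ Q) := by
  classical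
  obtain ⟨a, hadef⟩ : ∃ a : ℝ, a = (m : ℝ) / 2 ^ k := ⟨_, rfl⟩
  obtain ⟨w, hwdef⟩ : ∃ w : ℝ, w = 1 / 2 ^ k := ⟨_, rfl⟩
  have hw : 0 < w := by rw [hwdef]; positivity
  have hab : ((m : ℝ) + 1) / 2 ^ k = a + w := by rw [hadef, hwdef, add_div]
  have ha0 : 0 ≤ a := by rw [hadef]; positivity
  have hb1 : a + w ≤ 1 := by
    rw [← hab, div_le_one (by positivity)]
    exact_mod_cast hm
  have hDa : Dy a := ⟨m, k, by rw [hadef]; push_cast; rfl⟩
  have hDw : Dy w := ⟨1, k, by rw [hwdef]; push_cast; rfl⟩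
  rw [← hadef, hab] at hF
  obtain ⟨gu, hgu⟩ := hF (bump a w hw) (bump_PL2 a w hw hDa hDw) (by
    intro s hs
    rw [bump_apply]
    by_cases h : a < s
    · exact bf_ge (not_lt.1 fun h' => hs ⟨h, h'⟩)
    · exact bf_le (not_lt.1 h))
  obtain ⟨gf, hgf⟩ := hF (bump2 a w hw) (bump2_PL2 a w hw hDa hDw) (by
    intro s hs
    by_cases h : a < s
    · have h1 : a + w ≤ s := not_lt.1 fun h' => hs ⟨h, h'⟩
      rw [bump2_ge hw (by linarith), bf_ge (by linarith)]
    · have h1 : s ≤ a := not_lt.1 h
      rw [bump2_le hw (by linarith), bf_le h1])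
  -- the exceptional points
  let E : Set ℝ := (Set.range fun n : ℤ => (n : ℝ) + (a + w / 2)) ∪
    Set.range fun n : ℤ => (n : ℝ) + 1 - (a + w / 2)
  have hE : IsMeagre E := countable_meagre ((Set.countable_range _).union (Set.countable_range _))
  have hsign : ∀ (x : X) (r : ℝ), r ∉ E → (ρ x gf r = r ∧ ρ x gu r = r) ∨
      (r < ρ x gf r ∧ r < ρ x gu r) ∨ (ρ x gf r < r ∧ ρ x gu r < r) := by
    intro x r hr
    have hfl := Int.floor_add_fract r
    have h0 := Int.fract_nonneg r
    have h1 := (Int.fract_lt_one r).le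
    rcases hb : lb x ⌊r⌋ with _ | _
    · have e1 := (hgu x ⌊r⌋ (1 - Int.fract r) (by linarith) (by linarith)).2 hb
      have e2 := (hgf x ⌊r⌋ (1 - Int.fract r) (by linarith) (by linarith)).2 hb
      have e3 : (⌊r⌋ : ℝ) + 1 - (1 - Int.fract r) = r := by linarith
      rw [e3] at e1 e2
      have hne : 1 - Int.fract r ≠ a + w / 2 := by
        intro h
        apply hr
        right
        exact ⟨⌊r⌋, by linarith⟩
      rcases sign0 hw hne with ⟨h2, h3⟩ | ⟨h2, h3⟩
      · left
        rw [e1, e2, h2, h3]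
        exact ⟨e3, e3⟩
      · right
        right
        rw [e1, e2]
        constructor <;> linarith
    · have e1 := (hgu x ⌊r⌋ (Int.fract r) h0 h1).1 hb
      have e2 := (hgf x ⌊r⌋ (Int.fract r) h0 h1).1 hb
      rw [hfl] at e1 e2
      have hne : Int.fract r ≠ a + w / 2 := by
        intro h
        apply hr
        left
        exact ⟨⌊r⌋, by linarith⟩
      rcases sign0 hw hne with ⟨h2, h3⟩ | ⟨h2, h3⟩
      · left
        rw [e1, e2, h2, h3]
        exact ⟨hfl, hfl⟩
      · right
        left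
        rw [e1, e2]
        constructor <;> linarith
  obtain ⟨x⟩ := (inferInstance : Nonempty X)
  have hm0 : 0 ≤ a + w / 2 := by linarith
  have hm1 : a + w / 2 ≤ 1 := by linarith
  have hmf : bump2 a w hw (a + w / 2) = a + w / 2 := by
    rw [bump2_le hw le_rfl, bf_ge le_rfl]
  have hmu : a + w / 2 < bump a w hw (a + w / 2) := by
    rw [bump_apply]
    exact bf_gt hw (by linarith) (by linarith)
  have hqf : a + w / 4 < bump2 a w hw (a + w / 4) := by
    rw [bump2_le hw (by linarith)]
    exact bf_gt (half_pos hw) (by linarith) (by linarith)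
  rcases hb : lb x 0 with _ | _
  · have hf1 : gf ≠ 1 := by
      intro h
      have e := (hgf x 0 (a + w / 4) (by linarith) (by linarith)).2 hb
      rw [h, act_one] at e
      push_cast at e
      linarith
    refine crit_line ρ hρ {gu⁻¹} gf⁻¹ x (1 - (a + w / 2)) (inv_ne_one.2 hf1) ?_ ?_ ?_ ?_
    · apply act_fix
      have e := (hgf x 0 (a + w / 2) hm0 hm1).2 hb
      rw [hmf] at e
      push_cast at e
      rw [zero_add] at e
      exact e
    · intro u hu
      rw [Finset.mem_singleton] at hu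
      subst hu
      rw [← act_lt]
      have e := (hgu x 0 (a + w / 2) hm0 hm1).2 hb
      push_cast at e
      rw [zero_add] at e
      rw [e]
      linarith
    · intro z
      refine IsMeagre.mono ?_ hE
      rintro s ⟨h1, u, hu, h2⟩
      rw [Finset.mem_singleton] at hu
      subst hu
      by_contra h
      have h3 : ρ z gf s = s := by
        have := act_fix ρ z _ s h1
        rwa [inv_inv] at this
      rw [← act_lt] at h2
      rcases hsign z s h with h4 | h4 | h4
      · exact absurd h4.2 h2.ne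
      · exact absurd h3 h4.1.ne'
      · exact absurd h3 h4.1.ne
    · intro z
      refine IsMeagre.mono ?_ hE
      rintro s ⟨h1, h2⟩
      by_contra h
      rw [← act_gt] at h1
      have h5 := h2 gu⁻¹ (Finset.mem_singleton_self _)
      rcases hsign z s h with h4 | h4 | h4
      · exact absurd h4.1 h1.ne'
      · exact absurd ((act_gt ρ z gu s).1 h4.2) (not_lt.2 h5)
      · exact absurd h4.1 (lt_asymm h1)
  · have hf1 : gf ≠ 1 := by
      intro h
      have e := (hgf x 0 (a + w / 4) (by linarith) (by linarith)).1 hb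
      rw [h, act_one] at e
      push_cast at e
      linarith
    refine crit_line ρ hρ {gu} gf x (a + w / 2) hf1 ?_ ?_ ?_ ?_
    · have e := (hgf x 0 (a + w / 2) hm0 hm1).1 hb
      rw [hmf] at e
      push_cast at e
      rw [zero_add] at e
      exact e
    · intro u hu
      rw [Finset.mem_singleton] at hu
      subst hu
      have e := (hgu x 0 (a + w / 2) hm0 hm1).1 hb
      push_cast at e
      rw [zero_add, zero_add] at e
      rw [e]
      exact hmu
    · intro z
      refine IsMeagre.mono ?_ hE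
      rintro s ⟨h1, u, hu, h2⟩
      rw [Finset.mem_singleton] at hu
      subst hu
      by_contra h
      rcases hsign z s h with h4 | h4 | h4
      · exact absurd h4.2 h2.ne'
      · exact absurd h1 h4.1.ne'
      · exact absurd h1 h4.1.ne
    · intro z
      refine IsMeagre.mono ?_ hE
      rintro s ⟨h1, h2⟩
      by_contra h
      have h5 := h2 gu (Finset.mem_singleton_self _)
      rcases hsign z s h with h4 | h4 | h4
      · exact absurd h4.1 h1.ne
      · exact absurd h4.1 (lt_asymm h1)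
      · exact absurd h4.2 (not_lt.2 h5)

end Pool.Agent.H36LO
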