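import Pool.Agent.H36LO.Struct

/-!
# The reduction to groups without left-orderable quotients
-/

set_option autoImplicit false

namespace Pool.Agent.H36LO

/-- `N` is convex for the order with positive cone `P` -/
def Cvx {G : Type} [Group G] (P : Set G) (N : Subgroup G) : Prop :=
  ∀ g n : G, n ∈ N → g ∈ P → g⁻¹ * n ∈ P → g ∈ N

/-- the cone of the quotient by a convex normal subgroup -/
theorem quot_cone {G : Type} [Group G] {P : Set G} (hP : Cone P) (N : Subgroup G) [N.Normal]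
    (hN : Cvx P N) : Cone {q : G ⧸ N | ∃ g ∈ P, g ∉ N ∧ (g : G ⧸ N) = q} := by
  have hmul : ∀ a ∈ {q : G ⧸ N | ∃ g ∈ P, g ∉ N ∧ (g : G ⧸ N) = q},
      ∀ b ∈ {q : G ⧸ N | ∃ g ∈ P, g ∉ N ∧ (g : G ⧸ N) = q},
      a * b ∈ {q : G ⧸ N | ∃ g ∈ P, g ∉ N ∧ (g : G ⧸ N) = q} := by
    rintro _ ⟨g, hg, hgN, rfl⟩ _ ⟨h, hh, hhN, rfl⟩
    refine ⟨g * h, hP.1 g hg h hh, ?_, rfl⟩
    intro hgh
    apply hgN
    apply hN g (g * h) hgh hg
    rw [inv_mul_cancel_left]
    exact hh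
  have hone : (1 : G ⧸ N) ∉ {q : G ⧸ N | ∃ g ∈ P, g ∉ N ∧ (g : G ⧸ N) = q} := by
    rintro ⟨g, _, hgN, h⟩
    exact hgN ((QuotientGroup.eq_one_iff g).1 h)
  refine ⟨hmul, hone, ?_, ?_⟩
  · intro q hq
    obtain ⟨a, rfl⟩ := QuotientGroup.mk_surjective q
    have haN : a ∉ N := fun h => hq ((QuotientGroup.eq_one_iff a).2 h)
    have ha1 : a ≠ 1 := by
      rintro rfl
      exact haN N.one_mem
    rcases hP.2.2.1 a ha1 with h | h
    · exact Or.inl ⟨a, h, haN, rfl⟩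
    · refine Or.inr ⟨a⁻¹, h, fun h' => haN ?_, rfl⟩
      exact N.inv_mem_iff.1 h'
  · intro q hq hqi
    have h := hmul q hq _ hqi
    rw [mul_inv_cancel] at h
    exact hone h

theorem reduction (h : ∃ (G : Type) (_ : Group G), Group.FG G ∧ Nontrivial G ∧
      (∃ P : Set G, Cone P) ∧ Minimal G) :
    ∃ (G : Type) (_ : Group G), Group.FG G ∧ Nontrivial G ∧ (∃ P : Set G, Cone P) ∧ Minimal G ∧
      ∀ (H : Type) (_ : Group H) (φ : G →* H), (∃ Q : Set H, Cone Q) →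
        (Function.Injective φ ∨ ∀ g, φ g = 1) := by
  obtain ⟨G, _, hfg, hnt, ⟨P, hP⟩, hG⟩ := h
  let S : Set (Subgroup G) := {N | N.Normal ∧ N ≠ ⊤ ∧ Cvx P N}
  have hbot : (⊥ : Subgroup G) ∈ S := by
    refine ⟨inferInstance, ?_, ?_⟩
    · exact bot_ne_top
    · intro g n hn hg hgn
      rw [Subgroup.mem_bot] at hn
      rw [hn, mul_one] at hgn
      exact absurd hgn (hP.2.2.2 g hg)
  have hchain : ∀ c ⊆ S, IsChain (· ≤ ·) c → ∀ y ∈ c, ∃ ub ∈ S, ∀ z ∈ c, z ≤ ub := by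
    intro c hc hch y hy
    have hne : c.Nonempty := ⟨y, hy⟩
    have hdir : DirectedOn (· ≤ ·) c := hch.directedOn
    have hmem : ∀ x : G, x ∈ sSup c ↔ ∃ s ∈ c, x ∈ s := fun x =>
      Subgroup.mem_sSup_of_directedOn hne hdir
    refine ⟨sSup c, ⟨?_, ?_, ?_⟩, fun z hz => le_sSup hz⟩
    · constructor
      intro n hn g
      obtain ⟨s, hs, hns⟩ := (hmem n).1 hn
      exact (hmem _).2 ⟨s, hs, (hc hs).1.conj_mem n hns g⟩
    · intro htop
      obtain ⟨T, hT, hTf⟩ := Group.fg_iff.1 hfg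
      have : Nonempty c := hne.to_subtype
      have hd : Directed (· ⊆ ·) fun N : c => ((N : Subgroup G) : Set G) := by
        intro a b
        obtain ⟨d, hd, h1, h2⟩ := hdir a.1 a.2 b.1 b.2
        exact ⟨⟨d, hd⟩, h1, h2⟩
      have hsub : ((hTf.toFinset : Finset G) : Set G) ⊆ ⋃ N : c, ((N : Subgroup G) : Set G) := by
        intro x _
        have hx : x ∈ sSup c := by rw [htop]; exact Subgroup.mem_top x
        obtain ⟨s, hs, hxs⟩ := (hmem x).1 hx
        rw [Set.mem_iUnion]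
        exact ⟨⟨s, hs⟩, hxs⟩
      obtain ⟨N, hN⟩ := Directed.exists_mem_subset_of_finset_subset_biUnion hd hsub
      apply (hc N.2).2.1
      rw [eq_top_iff, ← hT, Subgroup.closure_le]
      rwa [hTf.coe_toFinset] at hN
    · intro g n hn hg hgn
      obtain ⟨s, hs, hns⟩ := (hmem n).1 hn
      exact (hmem g).2 ⟨s, hs, (hc hs).2.2 g n hns hg hgn⟩
  obtain ⟨N, _, hNS, hmax⟩ := zorn_le_nonempty₀ S hchain ⊥ hbot
  have hNn : N.Normal := hNS.1
  refine ⟨G ⧸ N, inferInstance, ?_, ?_, ⟨_, quot_cone hP N hNS.2.2⟩, ?_, ?_⟩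
  · exact Group.fg_of_surjective (f := QuotientGroup.mk' N) (QuotientGroup.mk'_surjective N)
  · obtain ⟨g, hg⟩ : ∃ g, g ∉ N := by
      by_contra h
      push Not at h
      exact hNS.2.1 ((Subgroup.eq_top_iff' N).2 h)
    exact ⟨(g : G ⧸ N), 1, fun h => hg ((QuotientGroup.eq_one_iff g).1 h)⟩
  · exact quot_minimal hG hP (QuotientGroup.mk' N) (QuotientGroup.mk'_surjective N)
  · intro H _ φ hQ
    obtain ⟨Q, hQ⟩ := hQ
    let ψ : G →* H := φ.comp (QuotientGroup.mk' N)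
    have hle : N ≤ ψ.ker := by
      intro n hn
      rw [MonoidHom.mem_ker]
      show φ (n : G ⧸ N) = 1
      rw [(QuotientGroup.eq_one_iff n).2 hn, map_one]
    by_cases htop : ψ.ker = ⊤
    · right
      intro q
      obtain ⟨a, rfl⟩ := QuotientGroup.mk_surjective q
      have ha : a ∈ ψ.ker := by rw [htop]; exact Subgroup.mem_top a
      exact ha
    · left
      have hK : ψ.ker ∈ S := by
        refine ⟨inferInstance, htop, ?_⟩
        intro g n hn hg hgn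
        exact ker_convex hG ψ hQ hP g n hn hg hgn
      have hKN : ψ.ker ≤ N := hmax hK hle
      rw [injective_iff_map_eq_one]
      intro q hq
      obtain ⟨a, rfl⟩ := QuotientGroup.mk_surjective q
      exact (QuotientGroup.eq_one_iff a).2 (hKN hq)

end Pool.Agent.H36LO
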