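import Pool.Agent.H36LO.Red
import Pool.Agent.H36LO.Inf

/-!
# The reduction, with the recurrence at infinity
-/

set_option autoImplicit false

namespace Pool.Agent.H36LO

theorem simple_recur {G : Type} [Group G] [Group.FG G] (hG : Minimal G) {P : Set G} (hP : Cone P)
    (hs : ∀ (H : Type) (_ : Group H) (φ : G →* H), (∃ Q : Set H, Cone Q) →
      (Function.Injective φ ∨ ∀ g, φ g = 1))
    (ρ : G →* (ℝ ≃o ℝ)) (hd : ∀ s, ∃ g, ρ g s ≠ s) (f : G) (hf : f ≠ 1) (b : ℝ) :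
    (∃ s, b < s ∧ s < ρ f s) ∧ (∃ s, b < s ∧ ρ f s < s) ∧
      (∃ s, s < b ∧ s < ρ f s) ∧ (∃ s, s < b ∧ ρ f s < s) := by
  have key : ∀ σ : G →* (ℝ ≃o ℝ), (∀ s, ∃ g, σ g s ≠ s) → infA σ f ≠ 1 := by
    intro σ hσ
    rcases hs _ _ (infA σ) (aut_cone Infi) with h | h
    · intro h1
      apply hf
      apply h
      rw [h1, map_one]
    · obtain ⟨s, hs⟩ := K_fix hG hP σ hσ
      obtain ⟨g, hg⟩ := hσ s
      exact absurd (hs g (h g)) hg
  exact four hG hP ρ f (key ρ hd) (key (refl ρ) (refl_nofix ρ hd)) b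

end Pool.Agent.H36LO
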