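import Pool.Agent.H36LO.Crit

/-!
# Groups whose conjugation action on the space of left orders is minimal: structure
-/

set_option autoImplicit false

namespace Pool.Agent.H36LO

/-- The conjugation action of `G` on the set of its left orders (given by the positive cones) is
minimal: every orbit is dense. -/
def Minimal (G : Type) [Group G] : Prop :=
  ∀ P Q : Set G, Cone P → Cone Q → ∀ F : Finset G, ∃ g : G, ∀ f ∈ F, (g * f * g⁻¹ ∈ P ↔ f ∈ Q)

section gen

variable {G H : Type} [Group G] [Group H]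

theorem cone_conj {P : Set G} (hP : Cone P) (g : G) : Cone {f : G | g * f * g⁻¹ ∈ P} := by
  refine ⟨?_, ?_, ?_, ?_⟩
  · intro a ha b hb
    have h := hP.1 _ ha _ hb
    rw [conj_mul] at h
    exact h
  · intro h
    rw [Set.mem_ofPred_eq, mul_one, mul_inv_cancel] at h
    exact hP.2.1 h
  · intro a ha
    have h1 : g * a * g⁻¹ ≠ 1 := fun h => ha (conj_eq_one_iff.1 h)
    have h2 := hP.2.2.1 _ h1
    rw [conj_inv] at h2
    exact h2
  · intro a ha h
    rw [Set.mem_ofPred_eq, ← conj_inv] at h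
    exact hP.2.2.2 _ ha h

/-- the lexicographic order of a homomorphism -/
def lexi (φ : G →* H) (Q : Set H) (P : Set G) : Set G := {g | φ g ∈ Q ∨ (φ g = 1 ∧ g ∈ P)}

theorem lexi_cone (φ : G →* H) {Q : Set H} {P : Set G} (hQ : Cone Q) (hP : Cone P) :
    Cone (lexi φ Q P) := by
  have hmul : ∀ a ∈ lexi φ Q P, ∀ b ∈ lexi φ Q P, a * b ∈ lexi φ Q P := by
    intro a ha b hb
    unfold lexi
    rw [Set.mem_ofPred_eq, map_mul]
    rcases ha with ha | ⟨ha, ha2⟩
    · rcases hb with hb | ⟨hb, hb2⟩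
      · exact Or.inl (hQ.1 _ ha _ hb)
      · rw [hb, mul_one]
        exact Or.inl ha
    · rcases hb with hb | ⟨hb, hb2⟩
      · rw [ha, one_mul]
        exact Or.inl hb
      · rw [ha, hb, mul_one]
        exact Or.inr ⟨rfl, hP.1 _ ha2 _ hb2⟩
  have hone : (1 : G) ∉ lexi φ Q P := by
    rintro (h | ⟨_, h⟩)
    · rw [map_one] at h
      exact hQ.2.1 h
    · exact hP.2.1 h
  refine ⟨hmul, hone, ?_, ?_⟩
  · intro a ha
    by_cases h : φ a = 1
    · rcases hP.2.2.1 a ha with h2 | h2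
      · exact Or.inl (Or.inr ⟨h, h2⟩)
      · exact Or.inr (Or.inr ⟨by rw [map_inv, h, inv_one], h2⟩)
    · rcases hQ.2.2.1 _ h with h2 | h2
      · exact Or.inl (Or.inl h2)
      · right
        left
        rw [map_inv]
        exact h2
  · intro a ha h
    have h2 := hmul _ ha _ h
    rw [mul_inv_cancel] at h2
    exact hone h2

/-- every conjugacy class meets every positive cone -/
theorem class_meets (hG : Minimal G) {P : Set G} (hP : Cone P) {f : G} (hf : f ≠ 1) :
    ∃ g : G, g * f * g⁻¹ ∈ P := by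
  obtain ⟨Q, hQ, hfQ⟩ : ∃ Q : Set G, Cone Q ∧ f ∈ Q := by
    rcases hP.2.2.1 f hf with h | h
    · exact ⟨P, hP, h⟩
    · exact ⟨_, Cone_inv hP, h⟩
  obtain ⟨g, hg⟩ := hG P Q hP hQ {f}
  exact ⟨g, (hg f (Finset.mem_singleton_self _)).2 hfQ⟩

/-- no left order is isolated -/
theorem no_isolated [Nontrivial G] (hG : Minimal G) {P : Set G} (hP : Cone P) (F : Finset G) :
    ∃ Q : Set G, Cone Q ∧ Q ≠ P ∧ ∀ f ∈ F, (f ∈ Q ↔ f ∈ P) := by
  obtain ⟨g, hg⟩ := hG _ P (Cone_inv hP) hP F
  refine ⟨_, cone_conj (Cone_inv hP) g, ?_, hg⟩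
  intro h
  have key : ∀ f : G, (g * f * g⁻¹)⁻¹ ∈ P ↔ f ∈ P := by
    intro f
    conv_rhs => rw [← h]
    rfl
  by_cases hg1 : g = 1
  · obtain ⟨a, ha⟩ := exists_ne (1 : G)
    have h1 := key a
    rw [hg1, one_mul, inv_one, mul_one] at h1
    rcases hP.2.2.1 a ha with h2 | h2
    · exact hP.2.2.2 a h2 (h1.2 h2)
    · exact hP.2.2.2 _ h2 (by rw [inv_inv]; exact h1.1 h2)
  · have h1 := key g
    rw [mul_inv_cancel_right] at h1
    rcases hP.2.2.1 g hg1 with h2 | h2
    · exact hP.2.2.2 g h2 (h1.2 h2)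
    · exact hP.2.2.2 _ h2 (by rw [inv_inv]; exact h1.1 h2)

/-- kernels of homomorphisms to left-orderable groups are convex in all left orders -/
theorem ker_convex (hG : Minimal G) (φ : G →* H) {Q : Set H} (hQ : Cone Q) {P : Set G}
    (hP : Cone P) (g n : G) (hn : φ n = 1) (h1 : g ∈ P) (h2 : g⁻¹ * n ∈ P) : φ g = 1 := by
  classical
  by_contra hne
  obtain ⟨h, hh⟩ := hG (lexi φ Q P) P (lexi_cone φ hQ hP) hP {g, g⁻¹ * n}
  have e1 := (hh g (Finset.mem_insert_self _ _)).2 h1
  have e2 := (hh (g⁻¹ * n) (Finset.mem_insert_of_mem (Finset.mem_singleton_self _))).2 h2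
  have h3 : φ (h * g * h⁻¹) ∈ Q := by
    rcases e1 with e | ⟨e, _⟩
    · exact e
    · rw [map_mul, map_mul, map_inv] at e
      exact absurd (conj_eq_one_iff.1 e) hne
  have h5 : φ (h * (g⁻¹ * n) * h⁻¹) = (φ (h * g * h⁻¹))⁻¹ := by
    simp only [map_mul, map_inv, hn, mul_one]
    group
  have h4 : (φ (h * g * h⁻¹))⁻¹ ∈ Q := by
    rcases e2 with e | ⟨e, _⟩
    · rw [h5] at e
      exact e
    · rw [h5, inv_eq_one] at e
      rw [e] at h3
      exact absurd h3 hQ.2.1
  exact hQ.2.2.2 _ h3 h4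

/-- left-orderable quotients -/
theorem quot_minimal (hG : Minimal G) {P : Set G} (hP : Cone P) (φ : G →* H)
    (hφ : Function.Surjective φ) : Minimal H := by
  classical
  intro A B hA hB F
  obtain ⟨σ, hσ⟩ := hφ.hasRightInverse
  obtain ⟨g, hg⟩ := hG (lexi φ A P) (lexi φ B P) (lexi_cone φ hA hP) (lexi_cone φ hB hP)
    (F.image σ)
  refine ⟨φ g, fun f hf => ?_⟩
  by_cases h1 : f = 1
  · rw [h1, mul_one, mul_inv_cancel]
    exact ⟨fun h => absurd h hA.2.1, fun h => absurd h hB.2.1⟩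
  · have h := hg (σ f) (Finset.mem_image_of_mem _ hf)
    have e : φ (g * σ f * g⁻¹) = φ g * f * (φ g)⁻¹ := by
      rw [map_mul, map_mul, map_inv, hσ f]
    have hne : φ g * f * (φ g)⁻¹ ≠ 1 := fun h' => h1 (conj_eq_one_iff.1 h')
    have l1 : g * σ f * g⁻¹ ∈ lexi φ A P ↔ φ g * f * (φ g)⁻¹ ∈ A := by
      unfold lexi
      rw [Set.mem_ofPred_eq, e]
      exact ⟨fun h' => h'.resolve_right fun h'' => hne h''.1, Or.inl⟩
    have l2 : σ f ∈ lexi φ B P ↔ f ∈ B := by
      unfold lexi
      rw [Set.mem_ofPred_eq, hσ f]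
      exact ⟨fun h' => h'.resolve_right fun h'' => h1 h''.1, Or.inl⟩
    rw [← l1, ← l2]
    exact h

end gen

section line

variable {G : Type} [Group G]

/-- An element that acts nontrivially on a chain moves some point up and some point down. -/
theorem two_sided {Ω : Type} [LinearOrder Ω] (hG : Minimal G) {P : Set G} (hP : Cone P)
    (ρ : G →* (Ω ≃o Ω)) (f : G) (hf : ∀ s, s ≤ ρ f s) : ρ f = 1 := by
  by_contra hne
  have hf1 : f ≠ 1 := by
    rintro rfl
    exact hne (map_one ρ)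
  let τ : Unit → (Ω ≃o Ω) →* (Ω ≃o Ω) := fun _ => MonoidHom.id _
  let D : Unit → Set Ω := fun _ => Set.univ
  have hD : ∀ g : (Ω ≃o Ω), (∀ x, ∀ s ∈ D x, τ x g s = s) → g = 1 := fun g hg =>
    RelIso.ext fun s => hg () s (Set.mem_univ _)
  have hC : Cone (PD τ D) := PD_cone τ D hD
  obtain ⟨g, hg⟩ := class_meets hG (lexi_cone ρ hC hP) (inv_ne_one.2 hf1)
  have h1 : ρ (g * f⁻¹ * g⁻¹) = (ρ (g * f * g⁻¹))⁻¹ := by
    rw [← map_inv, conj_inv]
  have h2 : ∀ s, s ≤ ρ (g * f * g⁻¹) s := by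
    intro s
    have e : ρ (g * f * g⁻¹) s = ρ g (ρ f (ρ g⁻¹ s)) := by
      rw [map_mul, map_mul]
      rfl
    rw [e]
    have e2 : ρ g (ρ g⁻¹ s) = s := by
      have : ρ (g * g⁻¹) s = s := by rw [mul_inv_cancel, map_one]; rfl
      rw [map_mul] at this
      exact this
    conv_lhs => rw [← e2]
    exact (ρ g).le_iff_le.2 (hf _)
  rcases hg with hg | ⟨hg, _⟩
  · rw [h1] at hg
    obtain ⟨p, _, hp, _⟩ := hg
    have h3 := h2 ((ρ (g * f * g⁻¹))⁻¹ p.2)
    have h4 : ρ (g * f * g⁻¹) ((ρ (g * f * g⁻¹))⁻¹ p.2) = p.2 := by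
      have : (ρ (g * f * g⁻¹) * (ρ (g * f * g⁻¹))⁻¹) p.2 = p.2 := by
        rw [mul_inv_cancel]
        rfl
      exact this
    rw [h4] at h3
    exact absurd hp (not_lt.2 h3)
  · rw [h1, inv_eq_one, map_mul, map_mul, map_inv] at hg
    exact hne (conj_eq_one_iff.1 hg)

/-- Actions on the line that commute with a homeomorphism without fixed points have a global
fixed point. -/
theorem circle (hG : Minimal G) {P : Set G} (hP : Cone P) (ρ : G →* (ℝ ≃o ℝ)) (T : ℝ ≃o ℝ)
    (hT : ∀ s, T s ≠ s) (hc : ∀ g s, ρ g (T s) = T (ρ g s)) : ∃ s, ∀ g, ρ g s = s := by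
  -- every element has a fixed point
  have sgn : ∀ k : ℝ ≃o ℝ, (∀ s, k s ≠ s) → (∀ s, s < k s) ∨ (∀ s, k s < s) := by
    intro k hk
    by_contra h
    push Not at h
    obtain ⟨⟨a, ha⟩, ⟨b, hb⟩⟩ := h
    have hcont : Continuous fun s => k s - s := k.continuous.sub continuous_id
    have hmem : (0 : ℝ) ∈ Set.range fun s => k s - s :=
      mem_range_of_exists_le_of_exists_ge hcont ⟨a, by linarith⟩ ⟨b, by linarith⟩
    obtain ⟨s, hs⟩ := hmem
    exact hk s (by linarith [hs])
  have hfix : ∀ g, ∃ s, ρ g s = s := by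
    intro g
    by_contra h
    push Not at h
    have hne : ρ g ≠ 1 := by
      intro h1
      apply h 0
      rw [h1]
      rfl
    rcases sgn (ρ g) h with h1 | h1
    · exact hne (two_sided hG hP ρ g fun s => (h1 s).le)
    · apply hne
      have h2 : ρ g⁻¹ = 1 := by
        apply two_sided hG hP ρ g⁻¹
        intro s
        have h3 : ρ g⁻¹ (ρ g s) = s := by
          have : ρ (g⁻¹ * g) s = s := by rw [inv_mul_cancel, map_one]; rfl
          rw [map_mul] at this
          exact this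
        rw [← (ρ g).le_iff_le]
        have h4 : ρ g (ρ g⁻¹ s) = s := by
          have : ρ (g * g⁻¹) s = s := by rw [mul_inv_cancel, map_one]; rfl
          rw [map_mul] at this
          exact this
        rw [h4]
        exact (h1 s).le
      rw [map_inv, inv_eq_one] at h2
      exact h2
  -- we may assume that `T` moves everything up
  obtain ⟨S, hS, hcS⟩ : ∃ S : ℝ ≃o ℝ, (∀ s, s < S s) ∧ ∀ g s, ρ g (S s) = S (ρ g s) := by
    rcases sgn T hT with h | h
    · exact ⟨T, h, hc⟩
    · refine ⟨T.symm, ?_, ?_⟩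
      · intro s
        have := h (T.symm s)
        rwa [T.apply_symm_apply] at this
      · intro g s
        apply T.injective
        rw [← hc, T.apply_symm_apply, T.apply_symm_apply]
  -- the orbit of `0` is bounded by `S 0`
  have hbd : ∀ g, ρ g 0 < S 0 := by
    intro g
    by_contra h
    push Not at h
    obtain ⟨c, hcf⟩ := hfix g
    -- iterate: `S^n 0 ≤ c < S^(n+1) 0` for some integer `n`
    have hfixS : ∀ s, ρ g s = s → ρ g (S s) = S s ∧ ρ g (S.symm s) = S.symm s := by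
      intro s hs
      refine ⟨by rw [hcS, hs], ?_⟩
      apply S.injective
      rw [← hcS, S.apply_symm_apply, hs]
    -- the set of fixed points below or at `0`
    have hup : ∀ s, ρ g s = s → ¬ (0 < s ∧ s ≤ S 0) := by
      rintro s hs ⟨h0, h1⟩
      have h2 : ρ g 0 < ρ g s := (ρ g).lt_iff_lt.2 h0
      rw [hs] at h2
      linarith
    rcases lt_or_ge 0 c with h0 | h0
    · -- go down
      let B : Set ℝ := {s | ρ g s = s ∧ 0 < s}
      have hBne : B.Nonempty := ⟨c, hcf, h0⟩
      have hBb : BddBelow B := ⟨0, fun s hs => hs.2.le⟩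
      have hi : 0 ≤ sInf B := le_csInf hBne fun s hs => hs.2.le
      have hdown : ∀ s ∈ B, S.symm s ∈ B := by
        rintro s ⟨hs, hs0⟩
        refine ⟨(hfixS s hs).2, ?_⟩
        by_contra h3
        push Not at h3
        apply hup s hs
        refine ⟨hs0, ?_⟩
        have := S.monotone h3
        rwa [S.apply_symm_apply] at this
      have h5 : sInf B < S (sInf B) := hS _
      obtain ⟨s, hsB, hs⟩ := exists_lt_of_csInf_lt hBne h5
      have h6 : S.symm s < sInf B := by
        have := S.symm.strictMono hs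
        rwa [S.symm_apply_apply] at this
      exact absurd (csInf_le hBb (hdown s hsB)) (not_le.2 h6)
    · -- go up
      let B : Set ℝ := {s | ρ g s = s ∧ s ≤ 0}
      have hBne : B.Nonempty := ⟨c, hcf, h0⟩
      have hBb : BddAbove B := ⟨0, fun s hs => hs.2⟩
      have hupB : ∀ s ∈ B, S s ∈ B := by
        rintro s ⟨hs, hs0⟩
        refine ⟨(hfixS s hs).1, ?_⟩
        by_contra h3
        push Not at h3
        exact hup (S s) (hfixS s hs).1 ⟨h3, S.monotone hs0⟩
      have h5 : S.symm (sSup B) < sSup B := by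
        have := hS (S.symm (sSup B))
        rwa [S.apply_symm_apply] at this
      obtain ⟨s, hsB, hs⟩ := exists_lt_of_lt_csSup hBne h5
      have h6 : sSup B < S s := by
        have := S.strictMono hs
        rwa [S.apply_symm_apply] at this
      exact absurd (le_csSup hBb (hupB s hsB)) (not_le.2 h6)
  -- the supremum of the orbit
  let O : Set ℝ := Set.range fun g => ρ g 0
  have hO : O.Nonempty := ⟨_, 1, rfl⟩
  have hOb : BddAbove O := ⟨S 0, by rintro _ ⟨g, rfl⟩; exact (hbd g).le⟩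
  refine ⟨sSup O, ?_⟩
  have hle : ∀ g, sSup O ≤ ρ g (sSup O) := by
    intro g
    apply csSup_le hO
    rintro _ ⟨h, rfl⟩
    have h1 : ρ (g⁻¹ * h) 0 ≤ sSup O := le_csSup hOb ⟨_, rfl⟩
    have h2 := (ρ g).monotone h1
    have h3 : ρ g (ρ (g⁻¹ * h) 0) = ρ h 0 := by
      have : ρ (g * (g⁻¹ * h)) 0 = ρ h 0 := by rw [mul_inv_cancel_left]
      rw [map_mul] at this
      exact this
    rw [h3] at h2
    exact h2
  intro g
  apply le_antisymm
  · have h1 := (ρ g).monotone (hle g⁻¹)
    have h4 : ρ g (ρ g⁻¹ (sSup O)) = sSup O := by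
      have : ρ (g * g⁻¹) (sSup O) = sSup O := by rw [mul_inv_cancel, map_one]; rfl
      rw [map_mul] at this
      exact this
    rw [h4] at h1
    exact h1
  · exact hle g

end line

end Pool.Agent.H36LO
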